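import Pool.Agent.helper10.FL.SpecV

/-! Row NPI of the block fl: (MP_70a088_an, rational maps). -/

set_option autoImplicit false

open Complex Metric Set Filter Topology MeasureTheory
open STA

noncomputable section

namespace FL

/-- OutI gives a pair in the sense of Spec.lean. -/
theorem NPI : NPI_stmt := by
  intro Y e s a m hY he he' hs hO
  have hsub : ball (0 : ℂ) (1 / 12) ⊆ ball (0 : ℂ) (9 / 10) := ball_subset_ball (by norm_num)
  refine
    { k0 := by norm_num
      k1 := le_refl _
      e0 := he
      e1 := he'.trans (by norm_num)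
      s1 := hs.trans (by norm_num)
      b1 := hO.a1
      c1 := hO.a1.trans hO.am.le
      gb := ?_
      nb := fun z hz => hO.na z (hsub hz)
      nc := fun z hz => hO.nm z (hsub hz)
      sb := hO.sa
      sc := hO.sm
      ang := ?_
      far := ?_ }
  · intro z hz
    have h := hO.gd z (hsub hz)
    refine ⟨?_, ((hY.add a m z).1 h).1⟩
    rw [Nat.add_comm] at h
    exact ((hY.add m a z).1 h).1
  · have h := hO.ang
    have h0 : 0 ≤ ‖T Y a 0‖ * ‖T Y m 0‖ := by positivity
    refine lt_of_le_of_lt ?_ h
    exact mul_le_mul_of_nonneg_right (by norm_num) h0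
  · intro z hz i _ _
    rw [zero_mul]
    exact norm_nonneg _

end FL

end
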